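import Pool.Agent.H59.Cup.Family

/-!
# Computably traceable sets of minimal degree that are not K-trivially cuppable

Sets of natural numbers are `ℕ → Bool`. Computability relative to a set `A` is Mathlib's
`ComputableIn {chi A}`, where `chi A` is the characteristic function of `A`.
-/

namespace Pool.Agent.Results.MP_1bc1ce_lc.MinimalNotCupping

open Encodable

/-- `pre X n` is the initial segment of length `n` of the infinite binary sequence `X`. -/
def pre (X : ℕ → Bool) (n : ℕ) : List Bool := (List.range n).map X

/-- The characteristic function of the set `A`, as an oracle. -/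
def chi (A : ℕ → Bool) : ℕ →. ℕ := fun n => Part.some (if A n then 1 else 0)

/-- `C ≤_T A`: the set `C` is computable in the oracle `A` (Mathlib's `ComputableIn`). -/
def TLe (C A : ℕ → Bool) : Prop := ComputableIn {chi A} C

/-- The join `A ⊕ B`: even numbers code `A`, odd numbers code `B`. -/
def join (A B : ℕ → Bool) : ℕ → Bool := fun n => if n % 2 = 0 then A (n / 2) else B (n / 2)

/-- The `e`-th partial recursive function on `ℕ`. -/
def phi (e : ℕ) : ℕ →. ℕ := Nat.Partrec.Code.eval (Denumerable.ofNat Nat.Partrec.Code e)

open Classical in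
/-- The halting problem `{e : phi e e is defined}`. -/
noncomputable def Halt : ℕ → Bool := fun e => decide (phi e e).Dom

/-- `X` is Turing complete: it computes the halting problem. -/
def Complete (X : ℕ → Bool) : Prop := TLe Halt X

/-- `A` has minimal Turing degree: it is not computable, and every set computable in `A` is
computable or computes `A`. -/
def MinimalDeg (A : ℕ → Bool) : Prop :=
  ¬ Computable A ∧ ∀ C : ℕ → Bool, TLe C A → Computable C ∨ TLe A C

/-- `A` is computably traceable: for every computable, nondecreasing, unbounded, positive `h`,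
every function `f` computable in `A` has a computable trace `T` bounded by `h`, that is
`f n ∈ T n` and `T n` has at most `h n` elements, for all `n`. -/
def CompTraceable (A : ℕ → Bool) : Prop :=
  ∀ h : ℕ → ℕ, Computable h → Monotone h → (∀ k, ∃ n, k ≤ h n) → (∀ n, 1 ≤ h n) →
    ∀ f : ℕ → ℕ, ComputableIn {chi A} f →
      ∃ T : ℕ → List ℕ, Computable T ∧ ∀ n, (T n).length ≤ h n ∧ f n ∈ T n

/-- A machine with prefix-free domain: a partial recursive function from strings to `ℕ` such that
no two different strings of its domain are comparable. -/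
structure PFMachine (M : List Bool →. ℕ) : Prop where
  partrec : Partrec M
  pf : ∀ σ τ, (M σ).Dom → (M τ).Dom → σ <+: τ → σ = τ

/-- The complexity of `x` with respect to the machine `M`: the least length of a description of
`x`. -/
noncomputable def cplx (M : List Bool →. ℕ) (x : ℕ) : ℕ∞ :=
  ⨅ σ : {σ : List Bool // x ∈ M σ}, (σ.1.length : ℕ∞)

/-- `U` is an optimal prefix-free machine. -/
structure Optimal (U : List Bool →. ℕ) : Prop where
  pfm : PFMachine U
  opt : ∀ M, PFMachine M → ∃ c : ℕ, ∀ x, cplx U x ≤ cplx M x + c

/-- `A` is K-trivial: `K(A ↾ n) ≤ K(n) + c` for some `c` and all `n`, where `K = cplx U` for an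
optimal prefix-free machine `U`, and strings are coded by natural numbers. -/
def KTrivial (A : ℕ → Bool) : Prop :=
  ∃ U, Optimal U ∧ ∃ c : ℕ, ∀ n, cplx U (encode (pre A n)) ≤ cplx U n + c

/-- `A` is K-trivially cuppable to the halting problem (the property of the question): there is a
K-trivial set `B` such that `A ⊕ B` is Turing complete. -/
def KCuppable (A : ℕ → Bool) : Prop := ∃ B, KTrivial B ∧ Complete (join A B)

theorem ktrivial_iff (A : ℕ → Bool) : KTrivial A ↔ OWR.KTrivial A := by
  constructor
  · rintro ⟨U, hU, h⟩
    exact ⟨U, ⟨⟨hU.pfm.partrec, hU.pfm.pf⟩, fun M hM => hU.opt M ⟨hM.partrec, hM.pf⟩⟩, h⟩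
  · rintro ⟨U, hU, h⟩
    exact ⟨U, ⟨⟨hU.pfm.partrec, hU.pfm.pf⟩, fun M hM => hU.opt M ⟨hM.partrec, hM.pf⟩⟩, h⟩

/-- **For every countable family `S` of Turing incomplete sets there is a computably traceable set
`A` of minimal Turing degree such that `A ⊕ B` is not Turing complete for any K-trivial set `B`
and for any `B` in `S`.** -/
theorem result (S : Set (ℕ → Bool)) (hS : S.Countable) (hi : ∀ B ∈ S, ¬ Complete B) :
    ∃ A : ℕ → Bool, MinimalDeg A ∧ CompTraceable A ∧ ¬ KCuppable A ∧
      ∀ B ∈ S, ¬ Complete (join A B) := by
  obtain ⟨A, h1, h2, h3, h4⟩ := Cup.part_two_both S hS hi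
  exact ⟨A, h1, h2, fun ⟨B, hB, hc⟩ => h4 B ((ktrivial_iff B).1 hB) hc, h3⟩

end Pool.Agent.Results.MP_1bc1ce_lc.MinimalNotCupping
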